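import Pool.Agent.Lib.MP_f0c157_lc.Inc

/-!
# MP_d5150c_lc: a `UP`-hard language in `NP` with a verifier which is ambiguous only on sparse scales
-/

set_option autoImplicit false

namespace Pool.Agent.Lib.MP_d5150c_lc.H21

open Pool.Agent.PolyTime Pool.Agent.Lib.MP_d5150c_lc Pool.Agent.Lib.MP_f0c157_lc N487b59b3
  N68a2faeb N793a5b8e Filter

/-- the clocked machine `e` accepts the input `y` with the witness `w` in `t` steps -/
def acc (e : Prog × ℕ) (y : List Bool) (t : ℕ) (w : List Bool) : Bool :=
  clock (bits ((y, w) : List Bool × List Bool)).length e.2 t &&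
    decide (runT e.1 (bits ((y, w) : List Bool × List Bool)) t = [true])

/-- refutations of unambiguity: an input, a number of steps, two witnesses -/
abbrev RefU : Type := List Bool × ℕ × List Bool × List Bool

/-- `r` refutes the unambiguity of `e` -/
def refU (e : Prog × ℕ) (r : RefU) : Bool :=
  acc e r.1 r.2.1 r.2.2.1 && (acc e r.1 r.2.1 r.2.2.2 && !(decide (r.2.2.1 = r.2.2.2)))

/-- the unambiguity of `e` is refuted by a candidate of logarithmic size -/
def refdU (e : Prog × ℕ) (n : ℕ) : Bool :=
  (enumc [] n).any fun q => refU e (unbits RefU q)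

/-- the test for an input of length `n`; `m` is the value of the bound -/
def testU (m n : ℕ) (a : Arg) : Bool :=
  decide (capVal m (bits a.1 ++ [true]) < m) && (decide ((bits a).length ≤ n) && !(refdU a.1 n))

/-- the verifier -/
def verU (s : ℕ → ℕ) (c : List Bool × List Bool) : Bool :=
  testU (s c.1.length) c.1.length (unbits Arg c.1) &&
    acc (unbits Arg c.1).1 (unbits Arg c.1).2.1 (unbits Arg c.1).2.2 c.2

theorem poly_acc {γ : Type} [Enc γ] {e : γ → Prog × ℕ} {y : γ → List Bool} {t : γ → ℕ}
    {w : γ → List Bool} (he : PolyFn e) (hy : PolyFn y) (ht : PolyFn t) (hw : PolyFn w) :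
    PolyFn (fun c => acc (e c) (y c) (t c) (w c)) := by
  have hv := poly_bits (hy.pair hw)
  have h1 := poly_clock (PolyFn.length hv) (PolyFn.snd.comp he) ht
  have h2 := PolyFn.decide_eq (poly_runT (PolyFn.fst.comp he) hv ht) (PolyFn.const [true])
  exact PolyFn.and h1 h2

theorem poly_refU : PolyFn (fun c : (Prog × ℕ) × RefU => refU c.1 c.2) := by
  have he : PolyFn (fun c : (Prog × ℕ) × RefU => c.1) := PolyFn.fst
  have hy : PolyFn (fun c : (Prog × ℕ) × RefU => c.2.1) := PolyFn.fst.comp PolyFn.snd
  have ht : PolyFn (fun c : (Prog × ℕ) × RefU => c.2.2.1) :=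
    PolyFn.fst.comp (PolyFn.snd.comp PolyFn.snd)
  have hw : PolyFn (fun c : (Prog × ℕ) × RefU => c.2.2.2.1) :=
    PolyFn.fst.comp (PolyFn.snd.comp (PolyFn.snd.comp PolyFn.snd))
  have hw' : PolyFn (fun c : (Prog × ℕ) × RefU => c.2.2.2.2) :=
    PolyFn.snd.comp (PolyFn.snd.comp (PolyFn.snd.comp PolyFn.snd))
  have h1 := poly_acc he hy ht hw
  have h2 := poly_acc he hy ht hw'
  have h3 := PolyFn.not (PolyFn.decide_eq hw hw')
  exact PolyFn.and h1 (PolyFn.and h2 h3)

theorem poly_refdU {γ : Type} [Enc γ] {e : γ → Prog × ℕ} {n : γ → ℕ} (he : PolyFn e)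
    (hn : PolyFn n) : PolyFn (fun c => refdU (e c) (n c)) := by
  have h0 : PolyFn (fun c : γ × List Bool => (e c.1, unbits RefU c.2)) :=
    (he.comp PolyFn.fst).pair (poly_unbits.comp PolyFn.snd)
  have h1 := poly_refU.comp h0
  dsimp only at h1
  have h2 : PolyFn (fun c => enumc [] (n c)) := poly_enumc [] hn
  have h3 := PolyFn.any (p := fun (c : γ) (q : List Bool) => refU (e c) (unbits RefU q)) h1 h2
  unfold refdU
  exact h3

theorem poly_testU : PolyFn (fun c : ℕ × ℕ × Arg => testU c.1 c.2.1 c.2.2) := by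
  have hm : PolyFn (fun c : ℕ × ℕ × Arg => c.1) := PolyFn.fst
  have hn : PolyFn (fun c : ℕ × ℕ × Arg => c.2.1) := PolyFn.fst.comp PolyFn.snd
  have ha : PolyFn (fun c : ℕ × ℕ × Arg => c.2.2) := PolyFn.snd.comp PolyFn.snd
  have he : PolyFn (fun c : ℕ × ℕ × Arg => c.2.2.1) := PolyFn.fst.comp ha
  have h1 : PolyFn (fun c : ℕ × ℕ × Arg => decide (capVal c.1 (bits c.2.2.1 ++ [true]) < c.1)) :=
    PolyFn.decide_lt (PolyFn.capVal hm (PolyFn.append (poly_bits he) (PolyFn.const [true]))) hm
  have h3 : PolyFn (fun c : ℕ × ℕ × Arg => !(refdU c.2.2.1 c.2.1)) :=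
    PolyFn.not (poly_refdU he hn)
  have h5 : PolyFn (fun c : ℕ × ℕ × Arg => decide ((bits c.2.2).length ≤ c.2.1)) :=
    PolyFn.decide_le (PolyFn.length (poly_bits ha)) hn
  have h4 := PolyFn.and h1 (PolyFn.and h5 h3)
  unfold testU
  exact h4

theorem poly_verU {s : ℕ → ℕ} (hs : PolyFn fun w : List Bool => List.replicate (s w.length) true) :
    PolyFn (verU s) := by
  have hx : PolyFn (fun c : List Bool × List Bool => c.1) := PolyFn.fst
  have hw : PolyFn (fun c : List Bool × List Bool => c.2) := PolyFn.snd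
  have hsw : PolyFn (fun w : List Bool => s w.length) :=
    (PolyFn.length hs).of_eq fun c => by simp
  have hsx : PolyFn (fun c : List Bool × List Bool => s c.1.length) := hsw.comp hx
  have ha : PolyFn (fun c : List Bool × List Bool => unbits Arg c.1) := poly_unbits.comp hx
  have h0 : PolyFn (fun c : List Bool × List Bool => (s c.1.length, c.1.length, unbits Arg c.1)) :=
    hsx.pair ((PolyFn.length hx).pair ha)
  have h1 := poly_testU.comp h0
  dsimp only at h1
  have h2 := poly_acc (PolyFn.fst.comp ha) (PolyFn.fst.comp (PolyFn.snd.comp ha))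
    (PolyFn.snd.comp (PolyFn.snd.comp ha)) hw
  have h3 := PolyFn.and h1 h2
  unfold verU
  exact h3

theorem acc_iff {e : Prog × ℕ} {y : List Bool} {t : ℕ} {w : List Bool} : acc e y t w = true ↔
    (bits ((y, w) : List Bool × List Bool)).length ^ e.2 + e.2 ≤ t ∧
      runT e.1 (bits ((y, w) : List Bool × List Bool)) t = [true] := by
  unfold acc
  rw [Bool.and_eq_true, clock_iff, decide_eq_true_iff]

theorem refU_iff {e : Prog × ℕ} {r : RefU} : refU e r = true ↔
    acc e r.1 r.2.1 r.2.2.1 = true ∧ acc e r.1 r.2.1 r.2.2.2 = true ∧ r.2.2.1 ≠ r.2.2.2 := by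
  unfold refU
  rw [Bool.and_eq_true, Bool.and_eq_true, Bool.not_eq_true', decide_eq_false_iff_not]

theorem testU_iff {m n : ℕ} {a : Arg} : testU m n a = true ↔
    cidx a.1 < m ∧ size a ≤ n ∧ refdU a.1 n = false := by
  unfold testU
  rw [Bool.and_eq_true, Bool.and_eq_true, decide_eq_true_iff, decide_eq_true_iff, capVal_eq,
    bits_length]
  have h1 : binVal (bits a.1 ++ [true]) = cidx a.1 := rfl
  rw [h1]
  constructor
  · rintro ⟨h2, h4, h5⟩
    exact ⟨by omega, h4, by simpa using h5⟩
  · rintro ⟨h2, h4, h5⟩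
    exact ⟨by omega, h4, by simpa using h5⟩

/-- an input of `e` with two witnesses occurs in an input of length at most `n` -/
def AmbAt (e : Prog × ℕ) (n : ℕ) : Prop :=
  ∃ (y : List Bool) (t : ℕ) (w w' : List Bool), size ((e, y, t) : Arg) ≤ n ∧ w.length ≤ n ∧
    w'.length ≤ n ∧ acc e y t w = true ∧ acc e y t w' = true ∧ w ≠ w'

theorem refd_of_amb {e : Prog × ℕ} {n N : ℕ} (h : AmbAt e n) (hN : 2 ^ (15 * n) ≤ N) :
    refdU e N = true := by
  obtain ⟨y, t, w, w', h1, h2, h3, h4, h5, h6⟩ := h
  have hsz : size ((y, t, w, w') : RefU) ≤ 15 * n := by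
    have e0 : size ((y, t) : List Bool × ℕ) = size y + size t + 1 := size_prod _ _
    have e1 : size ((e, y, t) : Arg) = size e + size ((y, t) : List Bool × ℕ) + 1 := size_prod _ _
    have e2 : size ((y, t, w, w') : RefU) = size y + (size t + (size w + size w' + 1) + 1) + 1 := by
      rw [size_prod, size_prod, size_prod]
    have e3 := size_bits_le w
    have e4 := size_bits_le w'
    have e5 := size_pos e
    omega
  obtain ⟨q, hq1, hq2⟩ := exists_mem_enumc ((y, t, w, w') : RefU) (n := N)
    ((Nat.pow_le_pow_right (by omega) hsz).trans hN)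
  unfold refdU
  rw [List.any_eq_true]
  exact ⟨q, hq1, by rw [hq2, refU_iff]; exact ⟨h4, h5, h6⟩⟩

/-- the language of the verifier -/
noncomputable def langU (s : ℕ → ℕ) (x : List Bool) : Bool :=
  letI := Classical.propDecidable (∃ w : List Bool, w.length ≤ x.length ∧ verU s (x, w) = true)
  decide (∃ w : List Bool, w.length ≤ x.length ∧ verU s (x, w) = true)

theorem langU_iff (s : ℕ → ℕ) (x : List Bool) : langU s x = true ↔
    ∃ w : List Bool, w.length ≤ x.length ∧ verU s (x, w) = true := by
  unfold langU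
  rw [@decide_eq_true_iff _ (Classical.propDecidable _)]

theorem eval_mono (p : Polynomial ℕ) {a b : ℕ} (h : a ≤ b) : p.eval a ≤ p.eval b := by
  rw [Polynomial.eval_eq_sum_range, Polynomial.eval_eq_sum_range]
  exact Finset.sum_le_sum fun i _ => Nat.mul_le_mul_left _ (Nat.pow_le_pow_left h i)

theorem hardU {s : ℕ → ℕ} (hs : Tendsto s atTop atTop) {D : DecisionProblem} (hD : D ∈ UP) :
    ManyOneReducible D (langU s) := by
  obtain ⟨p, R, hR, hD1, hD2⟩ := hD
  have hR' := polyFn_of_isPolyTime_pred hR
  set F : List Bool → List Bool := fun v =>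
    [decide ((unbits (List Bool × List Bool) v).2.length ≤
      p.eval (unbits (List Bool × List Bool) v).1.length) &&
      R (unbits (List Bool × List Bool) v)] with hF
  have hFp : PolyFn F := by
    have h0 : PolyFn (fun v : List Bool => unbits (List Bool × List Bool) v) := poly_unbits
    have h1 := PolyFn.decide_le (PolyFn.length (PolyFn.snd.comp h0))
      (poly_eval p (PolyFn.length (PolyFn.fst.comp h0)))
    have h2 := hR'.comp h0
    exact PolyFn.cons (PolyFn.and h1 h2) (PolyFn.const [])
  obtain ⟨pr, k, hk⟩ := exists_code (isPolyTime_fun hFp)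
  have hacc : ∀ y t w, acc (pr, k) y t w = true ↔
      (bits ((y, w) : List Bool × List Bool)).length ^ k + k ≤ t ∧
        w.length ≤ p.eval y.length ∧ R (y, w) = true := by
    intro y t w
    rw [acc_iff]
    refine and_congr_right fun h => ?_
    rw [hk _ _ h]
    show [decide _ && R (unbits (List Bool × List Bool) (bits ((y, w) : List Bool × List Bool)))]
      = _ ↔ _
    rw [unbits_bits]
    simp
  have hnr : ∀ n, refdU (pr, k) n = false := by
    intro n
    by_contra hcon
    rw [Bool.not_eq_false] at hcon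
    unfold refdU at hcon
    rw [List.any_eq_true] at hcon
    obtain ⟨q, _, hq⟩ := hcon
    rw [refU_iff, hacc, hacc] at hq
    exact hq.2.2 (hD2 _ _ _ hq.1.2.1 hq.2.1.2.1 hq.1.2.2 hq.2.1.2.2)
  obtain ⟨N, hN⟩ := eventually_atTop.1 (hs.eventually_gt_atTop (cidx (pr, k)))
  set B : List Bool → ℕ := fun y => 4 * y.length + 4 * p.eval y.length + 3 with hB
  have hBp : PolyFn B := by
    have h1 : PolyFn (fun y : List Bool => y.length) := PolyFn.length PolyFn.id
    exact PolyFn.add (PolyFn.add (PolyFn.mul (PolyFn.const 4) h1)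
      (PolyFn.mul (PolyFn.const 4) (poly_eval p h1))) (PolyFn.const 3)
  refine ⟨fun y => bits (((pr, k), y, B y ^ k + k + B y + N) : Arg), isPolyTime_fun ?_, ?_⟩
  · exact poly_bits ((PolyFn.const (pr, k)).pair (PolyFn.id.pair (PolyFn.add (PolyFn.add
      (PolyFn.add (PolyFn.pow hBp k) (PolyFn.const k)) hBp) (PolyFn.const N))))
  · intro y
    set t : ℕ := B y ^ k + k + B y + N with ht
    set a : Arg := ((pr, k), y, t) with ha
    have hlen : t ≤ (bits a).length := by
      rw [bits_length, ha]
      simp only [size_prod, size_nat]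
      omega
    have htest : testU (s (bits a).length) (bits a).length a = true := by
      rw [testU_iff]
      refine ⟨hN _ (by omega), by rw [bits_length], hnr _⟩
    rw [Bool.eq_iff_iff, langU_iff]
    have hv : ∀ w, verU s (bits a, w) = acc (pr, k) y t w := by
      intro w
      unfold verU
      dsimp only
      rw [unbits_bits, htest, Bool.true_and]
    rw [show (D y = true) = (D y : Prop) from rfl, hD1]
    constructor
    · rintro ⟨w, hw1, hw2⟩
      have h1 : (bits ((y, w) : List Bool × List Bool)).length ≤ B y := by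
        rw [bits_length, size_prod]
        have h2 := size_bits_le y
        have h3 := size_bits_le w
        show _ ≤ 4 * y.length + 4 * p.eval y.length + 3
        omega
      refine ⟨w, ?_, ?_⟩
      · have h2 : w.length ≤ B y := by
          show _ ≤ 4 * y.length + 4 * p.eval y.length + 3
          omega
        show w.length ≤ (bits a).length
        omega
      · rw [hv, hacc]
        refine ⟨?_, hw1, hw2⟩
        have h2 := Nat.pow_le_pow_left h1 k
        omega
    · rintro ⟨w, hw1, hw2⟩
      rw [hv, hacc] at hw2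
      exact ⟨w, hw2.2⟩

theorem main_sparseUP (s : ℕ → ℕ) (hmono : Monotone s) (hs : Tendsto s atTop atTop)
    (hsp : IsPolyTime (fun w : List Bool => List.replicate (s w.length) true)) :
    ∃ (K : DecisionProblem) (p : Polynomial ℕ) (R : List Bool × List Bool → Bool),
      IsPolyTime R ∧
      (∀ x, K x ↔ ∃ w : List Bool, w.length ≤ p.eval x.length ∧ R (x, w)) ∧
      (∀ D ∈ UP, ManyOneReducible D K) ∧
      ∀ N, ∃ M : Finset ℕ, M.card ≤ s N ∧
        ∀ x w w' : List Bool, x.length ≤ N → w.length ≤ p.eval x.length →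
          w'.length ≤ p.eval x.length → R (x, w) → R (x, w') → w ≠ w' →
            ∃ m ∈ M, m ≤ x.length ∧ x.length ≤ 2 ^ (15 * m) := by
  refine ⟨langU s, Polynomial.X, verU s, isPolyTime_of_polyFn (poly_verU
    (polyFn_of_isPolyTime hsp)), ?_, fun D hD => hardU hs hD, ?_⟩
  · intro x
    rw [show (langU s x : Prop) = (langU s x = true) from rfl, langU_iff]
    simp only [Polynomial.eval_X]
  · intro N
    classical
    let n0 : ℕ → ℕ := fun i => sInf {n | ∃ e, cidx e = i ∧ AmbAt e n}
    refine ⟨(Finset.range (s N)).image n0, (Finset.card_image_le).trans (by simp), ?_⟩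
    intro x w w' hx hw hw' hR hR' hne
    rw [Polynomial.eval_X] at hw hw'
    set a := unbits Arg x with ha
    have h1 : testU (s x.length) x.length a = true ∧ acc a.1 a.2.1 a.2.2 w = true := by
      have := hR
      unfold verU at this
      rwa [Bool.and_eq_true] at this
    have h2 : testU (s x.length) x.length a = true ∧ acc a.1 a.2.1 a.2.2 w' = true := by
      have := hR'
      unfold verU at this
      rwa [Bool.and_eq_true] at this
    obtain ⟨h3, h4, h5⟩ := testU_iff.1 h1.1
    have hamb : AmbAt a.1 x.length := ⟨a.2.1, a.2.2, w, w', h4, hw, hw', h1.2, h2.2, hne⟩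
    have hmem0 : x.length ∈ {n | ∃ e, cidx e = cidx a.1 ∧ AmbAt e n} := ⟨a.1, rfl, hamb⟩
    obtain ⟨e, he, hmem⟩ := Nat.sInf_mem ⟨_, hmem0⟩
    have he' := cidx_inj he
    subst he'
    refine ⟨n0 (cidx a.1), Finset.mem_image_of_mem _ (Finset.mem_range.2
      (h3.trans_le (hmono hx))), Nat.sInf_le hmem0, ?_⟩
    by_contra hcon
    push Not at hcon
    have h7 := refd_of_amb hmem hcon.le
    rw [h5] at h7
    exact absurd h7 (by simp)

end Pool.Agent.Lib.MP_d5150c_lc.H21
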